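import Mathlib

/-!
Parameters.
-/

set_option autoImplicit false

open Filter

namespace Pool.Agent.H70GH

theorem log_small : ∀ᶠ T : ℕ in atTop, 5 * (12 * Real.log (T : ℝ)) ^ 12 < T := by
  have h1 : (fun x : ℝ => Real.log x) =o[atTop] fun x => x ^ ((1 : ℝ) / 24) :=
    isLittleO_log_rpow_atTop (by norm_num)
  have h2 : ∀ᶠ x : ℝ in atTop, ‖Real.log x‖ ≤ 1 * ‖x ^ ((1 : ℝ) / 24)‖ := h1.bound one_pos
  have h3 : Tendsto (fun x : ℝ => x ^ ((1 : ℝ) / 2)) atTop atTop :=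
    tendsto_rpow_atTop (by norm_num)
  have h4 : ∀ᶠ x : ℝ in atTop, 5 * (12 * Real.log x) ^ 12 < x := by
    filter_upwards [h2, h3.eventually_gt_atTop (5 * 12 ^ 12), eventually_ge_atTop 1] with x hx1 hx2
      hx3
    rw [one_mul, Real.norm_eq_abs, Real.norm_eq_abs, abs_of_nonneg (Real.log_nonneg hx3),
      abs_of_nonneg (by positivity)] at hx1
    have h5 : Real.log x ^ 12 ≤ x ^ ((1 : ℝ) / 2) := by
      calc Real.log x ^ 12 ≤ (x ^ ((1 : ℝ) / 24)) ^ 12 :=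
            pow_le_pow_left₀ (Real.log_nonneg hx3) hx1 12
        _ = x ^ ((1 : ℝ) / 2) := by
            rw [← Real.rpow_natCast, ← Real.rpow_mul (by linarith)]; norm_num
    have h6 : x ^ ((1 : ℝ) / 2) * x ^ ((1 : ℝ) / 2) = x := by
      rw [← Real.rpow_add (by linarith)]; norm_num
    have h7 : 0 < x ^ ((1 : ℝ) / 2) := by positivity
    calc 5 * (12 * Real.log x) ^ 12 = (5 * 12 ^ 12) * Real.log x ^ 12 := by ring
      _ ≤ (5 * 12 ^ 12) * x ^ ((1 : ℝ) / 2) := by gcongr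
      _ < x ^ ((1 : ℝ) / 2) * x ^ ((1 : ℝ) / 2) := mul_lt_mul_of_pos_right hx2 h7
      _ = x := h6
  exact tendsto_natCast_atTop_atTop.eventually h4

theorem sieve_ok : ∃ T0 : ℕ, ∀ T : ℕ, T0 ≤ T → ∃ I K : ℕ, 1 ≤ I ∧ K + 2 ≤ T ^ 489 ∧
    ∀ M : ℕ, M ≤ T ^ 3 → (2 : ℝ) ^ (60 * 2 ^ I) + (M : ℝ) * ((K : ℝ) / (2 : ℝ) ^ 2 ^ I + 1) <
      K * (Real.exp (-8) ^ I / 2) := by
  obtain ⟨T1, hT1⟩ := eventually_atTop.1 log_small
  refine ⟨max T1 2, fun T hT => ?_⟩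
  have hTT1 : T1 ≤ T := (le_max_left _ _).trans hT
  have hT2 : 2 ≤ T := (le_max_right _ _).trans hT
  have hsmall := hT1 T hTT1
  have hex : ∃ I : ℕ, T ^ 4 ≤ 2 ^ 2 ^ I := by
    refine ⟨T ^ 4, ?_⟩
    have h1 : T ^ 4 < 2 ^ (T ^ 4) := Nat.lt_two_pow_self
    have h2 : T ^ 4 < 2 ^ (T ^ 4) := h1
    have h3 : 2 ^ (T ^ 4) ≤ 2 ^ 2 ^ (T ^ 4) := Nat.pow_le_pow_right (by norm_num) h2.le
    omega
  obtain ⟨I, hI, hmin⟩ : ∃ I : ℕ, T ^ 4 ≤ 2 ^ 2 ^ I ∧ ∀ J < I, ¬ T ^ 4 ≤ 2 ^ 2 ^ J :=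
    ⟨Nat.find hex, Nat.find_spec hex, fun J hJ => Nat.find_min hex hJ⟩
  have h16 : 16 ≤ T ^ 4 := by
    calc 16 = 2 ^ 4 := by norm_num
      _ ≤ T ^ 4 := Nat.pow_le_pow_left hT2 4
  have hI1 : 1 ≤ I := by
    rcases Nat.eq_zero_or_pos I with h | h
    · rw [h] at hI; norm_num at hI; omega
    · exact h
  obtain ⟨Z, hZ⟩ : ∃ Z : ℕ, Z = 2 ^ 2 ^ I := ⟨_, rfl⟩
  have hZlow : T ^ 4 ≤ Z := by rw [hZ]; exact hI
  have hZup : Z ≤ T ^ 8 := by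
    have h1 := hmin (I - 1) (by omega)
    push Not at h1
    have h2 : Z = (2 ^ 2 ^ (I - 1)) ^ 2 := by
      rw [hZ, ← pow_mul, ← pow_succ]; congr 2; omega
    rw [h2]
    calc (2 ^ 2 ^ (I - 1)) ^ 2 ≤ (T ^ 4) ^ 2 := Nat.pow_le_pow_left h1.le 2
      _ = T ^ 8 := by rw [← pow_mul]
  refine ⟨I, Z ^ 61, hI1, ?_, ?_⟩
  · have h1 : Z ^ 61 ≤ T ^ 488 := by
      calc Z ^ 61 ≤ (T ^ 8) ^ 61 := Nat.pow_le_pow_left hZup 61
        _ = T ^ 488 := by rw [← pow_mul]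
    have h2 : 2 ≤ T ^ 488 := hT2.trans (Nat.le_self_pow (by norm_num) T)
    calc Z ^ 61 + 2 ≤ T ^ 488 * 2 := by omega
      _ ≤ T ^ 488 * T := Nat.mul_le_mul_left _ hT2
      _ = T ^ 489 := by rw [← pow_succ]
  · intro M hM
    have hTR : (2 : ℝ) ≤ T := by exact_mod_cast hT2
    have hZR : (2 : ℝ) ^ 2 ^ I = (Z : ℝ) := by rw [hZ]; push_cast; ring
    have hZ4 : (T : ℝ) ^ 4 ≤ Z := by exact_mod_cast hZlow
    have hZ8 : (Z : ℝ) ≤ (T : ℝ) ^ 8 := by exact_mod_cast hZup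
    have hMR : (M : ℝ) ≤ (T : ℝ) ^ 3 := by exact_mod_cast hM
    have hTpos : (0 : ℝ) < T := by linarith
    have hZpos : (0 : ℝ) < Z := lt_of_lt_of_le (by positivity) hZ4
    have hZ1 : (1 : ℝ) ≤ Z := by
      have : (1 : ℝ) ≤ (T : ℝ) ^ 4 := one_le_pow₀ (by linarith)
      linarith
    have e60 : (2 : ℝ) ^ (60 * 2 ^ I) = (Z : ℝ) ^ 60 := by
      rw [← hZR, ← pow_mul]; congr 1; ring
    have hKc : ((Z ^ 61 : ℕ) : ℝ) = (Z : ℝ) ^ 61 := by push_cast; ring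
    rw [e60, hZR, hKc]
    have e61 : (Z : ℝ) ^ 61 / Z = (Z : ℝ) ^ 60 := by
      rw [pow_succ, mul_div_assoc, div_self hZpos.ne', mul_one]
    rw [e61]
    -- `exp (8 I)`
    obtain ⟨E, hE⟩ : ∃ E : ℝ, E = Real.exp 8 ^ I := ⟨_, rfl⟩
    have hEpos : 0 < E := by rw [hE]; positivity
    have hinv : Real.exp (-8) ^ I = 1 / E := by
      rw [hE, Real.exp_neg, inv_pow, one_div]
    have hlog2 : (0.69 : ℝ) < Real.log 2 := by have := Real.log_two_gt_d9; linarith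
    have hlogT : 0 < Real.log T := Real.log_pos (by linarith)
    have h2I : (2 : ℝ) ^ I ≤ 12 * Real.log T := by
      have h1 : Real.log Z ≤ Real.log ((T : ℝ) ^ 8) := Real.log_le_log hZpos hZ8
      rw [Real.log_pow, ← hZR, Real.log_pow] at h1
      push_cast at h1
      have h2 : (2 : ℝ) ^ I * 0.69 ≤ (2 : ℝ) ^ I * Real.log 2 :=
        mul_le_mul_of_nonneg_left hlog2.le (by positivity)
      linarith
    have hE12 : E ≤ (12 * Real.log T) ^ 12 := by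
      have h1 : Real.exp 8 ≤ (2 : ℝ) ^ 12 := by
        have h5 : Real.exp 8 = Real.exp 1 ^ 8 := by rw [← Real.exp_nat_mul]; norm_num
        rw [h5]
        calc Real.exp 1 ^ 8 ≤ 2.7182818286 ^ 8 :=
              pow_le_pow_left₀ (Real.exp_pos 1).le Real.exp_one_lt_d9.le 8
          _ ≤ 2 ^ 12 := by norm_num
      calc E ≤ ((2 : ℝ) ^ 12) ^ I := by rw [hE]; exact pow_le_pow_left₀ (Real.exp_pos 8).le h1 I
        _ = ((2 : ℝ) ^ I) ^ 12 := by rw [← pow_mul, ← pow_mul]; congr 1; ring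
        _ ≤ (12 * Real.log T) ^ 12 := pow_le_pow_left₀ (by positivity) h2I 12
    have hE5 : 5 * E < T := lt_of_le_of_lt (by linarith) hsmall
    rw [hinv]
    have hT3 : (8 : ℝ) ≤ (T : ℝ) ^ 3 := by
      calc (8 : ℝ) = 2 ^ 3 := by norm_num
        _ ≤ (T : ℝ) ^ 3 := pow_le_pow_left₀ (by norm_num) hTR 3
    have hZ60 : (1 : ℝ) ≤ (Z : ℝ) ^ 60 := one_le_pow₀ hZ1
    have key : (2 * (1 + 2 * (T : ℝ) ^ 3)) * E < Z := by
      have h1 : 2 * (1 + 2 * (T : ℝ) ^ 3) ≤ 5 * (T : ℝ) ^ 3 := by linarith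
      calc (2 * (1 + 2 * (T : ℝ) ^ 3)) * E ≤ (5 * (T : ℝ) ^ 3) * E :=
            mul_le_mul_of_nonneg_right h1 hEpos.le
        _ = (T : ℝ) ^ 3 * (5 * E) := by ring
        _ < (T : ℝ) ^ 3 * T := mul_lt_mul_of_pos_left hE5 (by positivity)
        _ = (T : ℝ) ^ 4 := by ring
        _ ≤ Z := hZ4
    have h1 : (Z : ℝ) ^ 60 + (M : ℝ) * ((Z : ℝ) ^ 60 + 1) ≤
        (Z : ℝ) ^ 60 * (1 + 2 * (T : ℝ) ^ 3) := by
      have h2 : (M : ℝ) * ((Z : ℝ) ^ 60 + 1) ≤ (T : ℝ) ^ 3 * (2 * (Z : ℝ) ^ 60) :=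
        mul_le_mul hMR (by linarith) (by positivity) (by positivity)
      linarith
    refine lt_of_le_of_lt h1 ?_
    have h3 : (Z : ℝ) ^ 61 * (1 / E / 2) = (Z : ℝ) ^ 60 * (Z / (2 * E)) := by
      field_simp
    rw [h3]
    apply mul_lt_mul_of_pos_left _ (by positivity)
    rw [lt_div_iff₀ (by positivity)]
    linarith

/-- the level belonging to a large number -/
theorem level (n1 : ℕ) : ∃ y0 : ℝ, ∀ y : ℝ, y0 ≤ y → ∃ n : ℕ, n1 ≤ n ∧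
    ((1 + 3 * (n : ℝ)) ^ (64 * n + 40) ≤ y) ∧ y < (1 + 3 * ((n : ℝ) + 1)) ^ (64 * (n + 1) + 40) := by
  have hmono : ∀ m k : ℕ, m ≤ k → (1 + 3 * (m : ℝ)) ^ (64 * m + 40) ≤
      (1 + 3 * (k : ℝ)) ^ (64 * k + 40) := by
    intro m k hmk
    have h1 : (m : ℝ) ≤ k := by exact_mod_cast hmk
    have h0 : (0 : ℝ) ≤ m := Nat.cast_nonneg m
    calc (1 + 3 * (m : ℝ)) ^ (64 * m + 40) ≤ (1 + 3 * (k : ℝ)) ^ (64 * m + 40) :=
          pow_le_pow_left₀ (by positivity) (by linarith) _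
      _ ≤ (1 + 3 * (k : ℝ)) ^ (64 * k + 40) := pow_le_pow_right₀ (by linarith) (by omega)
  refine ⟨(1 + 3 * (n1 : ℝ)) ^ (64 * n1 + 40), fun y hy => ?_⟩
  have hex : ∃ m : ℕ, y < (1 + 3 * (m : ℝ)) ^ (64 * m + 40) := by
    obtain ⟨m, hm⟩ := exists_nat_gt y
    refine ⟨m, ?_⟩
    have h0 : (0 : ℝ) ≤ m := Nat.cast_nonneg m
    calc y < m := hm
      _ ≤ 1 + 3 * (m : ℝ) := by linarith
      _ = (1 + 3 * (m : ℝ)) ^ 1 := (pow_one _).symm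
      _ ≤ (1 + 3 * (m : ℝ)) ^ (64 * m + 40) := pow_le_pow_right₀ (by linarith) (by omega)
  obtain ⟨m, hm, hmin⟩ : ∃ m : ℕ, y < (1 + 3 * (m : ℝ)) ^ (64 * m + 40) ∧
      ∀ k < m, ¬ y < (1 + 3 * (k : ℝ)) ^ (64 * k + 40) :=
    ⟨Nat.find hex, Nat.find_spec hex, fun k hk => Nat.find_min hex hk⟩
  have hn1 : n1 < m := by
    by_contra hle
    push Not at hle
    have := hmono m n1 hle
    linarith
  refine ⟨m - 1, by omega, ?_, ?_⟩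
  · have := hmin (m - 1) (by omega)
    push Not at this
    exact this
  · have e : m - 1 + 1 = m := by omega
    have e' : ((m - 1 : ℕ) : ℝ) + 1 = m := by
      have : ((m - 1 + 1 : ℕ) : ℝ) = (m : ℝ) := by rw [e]
      push_cast at this
      exact this
    rw [e', e]; exact hm

end Pool.Agent.H70GH
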