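import Pool.Agent.H446R2.BrunD
import Pool.Agent.H70HD.Step

/-!
An integer of a short arithmetic progression coprime to a given number.
-/

set_option autoImplicit false

open Finset

namespace Pool.Agent.H70GH

theorem card_mult (m K p : ℕ) (hp : 0 < p) :
    (((Ioc m (m + K)).filter (fun n => p ∣ n)).card : ℝ) ≤ (K : ℝ) / p + 1 := by
  classical
  have hp0 : (0 : ℝ) < p := by exact_mod_cast hp
  set S := (Ioc m (m + K)).filter (fun n => p ∣ n) with hS
  have hmem : ∀ n ∈ S, m < n ∧ n ≤ m + K ∧ p ∣ n := by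
    intro n hn
    rw [hS, mem_filter, mem_Ioc] at hn
    exact ⟨hn.1.1, hn.1.2, hn.2⟩
  have h := Pool.Agent.H70HD.card_spaced (S.image (fun n : ℕ => (n : ℝ))) (1 / p) K
    (by positivity) (by positivity) (by
      intro y hy y' hy' hne
      rw [mem_image] at hy hy'
      obtain ⟨n, hn, rfl⟩ := hy
      obtain ⟨n', hn', rfl⟩ := hy'
      have e1 : (p : ℤ) ∣ (n : ℤ) - n' :=
        dvd_sub (Int.natCast_dvd_natCast.2 (hmem n hn).2.2)
          (Int.natCast_dvd_natCast.2 (hmem n' hn').2.2)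
      have hne0 : (n : ℤ) - n' ≠ 0 := by
        intro h0
        apply hne
        have : (n : ℤ) = n' := by linarith
        exact_mod_cast this
      have h2 : (p : ℤ) ≤ |(n : ℤ) - n'| := Int.le_of_dvd (abs_pos.2 hne0) ((dvd_abs _ _).2 e1)
      rw [one_div_one_div]
      exact_mod_cast h2) (by
      intro y hy y' hy'
      rw [mem_image] at hy hy'
      obtain ⟨n, hn, rfl⟩ := hy
      obtain ⟨n', hn', rfl⟩ := hy'
      obtain ⟨a1, a2, -⟩ := hmem n hn
      obtain ⟨b1, b2, -⟩ := hmem n' hn'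
      have a1' : (m : ℝ) ≤ n := by exact_mod_cast a1.le
      have a2' : (n : ℝ) ≤ m + K := by exact_mod_cast a2
      have b1' : (m : ℝ) ≤ n' := by exact_mod_cast b1.le
      have b2' : (n' : ℝ) ≤ m + K := by exact_mod_cast b2
      rw [abs_le]; constructor <;> linarith)
  rw [card_image_of_injective _ Nat.cast_injective, mul_one_div] at h
  exact h

theorem card_big (N0 z : ℕ) (hN0 : 0 < N0) :
    ((N0.primeFactors.filter (fun p => z < p)).card) ≤ Nat.log 2 N0 := by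
  set L := N0.primeFactors.filter (fun p => z < p) with hL
  have h1 : 2 ^ L.card ≤ ∏ p ∈ L, p := by
    rw [← prod_const]
    refine prod_le_prod' ?_
    intro p hp
    exact (Nat.prime_of_mem_primeFactors (mem_filter.1 hp).1).two_le
  have h2 : ∏ p ∈ L, p ∣ N0 :=
    (prod_dvd_prod_of_subset _ _ _ (filter_subset _ _)).trans (Nat.prod_primeFactors_dvd N0)
  have h3 := Nat.le_of_dvd hN0 h2
  exact Nat.le_log_of_pow_le (by norm_num) (h1.trans h3)

theorem exists_shift (I : ℕ) (hI : 1 ≤ I) (N0 m K : ℕ) (hN0 : 0 < N0)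
    (h : (2 : ℝ) ^ (60 * 2 ^ I) + (Nat.log 2 N0 : ℝ) * ((K : ℝ) / (2 : ℝ) ^ 2 ^ I + 1) <
      K * (Real.exp (-8) ^ I / 2)) :
    ∃ t : ℕ, 0 < t ∧ t ≤ K ∧ Nat.Coprime (m + t) N0 := by
  classical
  set S := N0.primeFactors.filter (fun p => p ≤ 2 ^ 2 ^ I) with hS
  set L := N0.primeFactors.filter (fun p => 2 ^ 2 ^ I < p) with hL
  have hsieve := Pool.Agent.H446R2.sieve_lower S (fun p hp =>
    Nat.prime_of_mem_primeFactors (mem_filter.1 hp).1) I hI (fun p hp => (mem_filter.1 hp).2) m K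
  by_contra hcon
  push Not at hcon
  have hsub : (Ioc m (m + K)).filter (fun n => ∀ p ∈ S, ¬ p ∣ n) ⊆
      L.biUnion (fun p => (Ioc m (m + K)).filter (fun n => p ∣ n)) := by
    intro n hn
    rw [mem_filter, mem_Ioc] at hn
    obtain ⟨⟨h1, h2⟩, h3⟩ := hn
    have h4 : ¬ Nat.Coprime (m + (n - m)) N0 := hcon (n - m) (by omega) (by omega)
    rw [show m + (n - m) = n by omega, Nat.Prime.not_coprime_iff_dvd] at h4
    obtain ⟨p, hp, hp1, hp2⟩ := h4
    have hpN : p ∈ N0.primeFactors := Nat.mem_primeFactors.2 ⟨hp, hp2, hN0.ne'⟩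
    rw [mem_biUnion]
    refine ⟨p, ?_, ?_⟩
    · rw [hL, mem_filter]
      refine ⟨hpN, ?_⟩
      by_contra hle
      push Not at hle
      exact h3 p (mem_filter.2 ⟨hpN, hle⟩) hp1
    · rw [mem_filter, mem_Ioc]
      exact ⟨⟨h1, h2⟩, hp1⟩
  have h5 : (((Ioc m (m + K)).filter (fun n => ∀ p ∈ S, ¬ p ∣ n)).card : ℝ) ≤
      (Nat.log 2 N0 : ℝ) * ((K : ℝ) / (2 : ℝ) ^ 2 ^ I + 1) := by
    have h6 := (card_le_card hsub).trans card_biUnion_le
    have h7 : (((Ioc m (m + K)).filter (fun n => ∀ p ∈ S, ¬ p ∣ n)).card : ℝ) ≤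
        ∑ p ∈ L, (((Ioc m (m + K)).filter (fun n => p ∣ n)).card : ℝ) := by exact_mod_cast h6
    refine h7.trans ?_
    have h8 : ∀ p ∈ L, (((Ioc m (m + K)).filter (fun n => p ∣ n)).card : ℝ) ≤
        (K : ℝ) / (2 : ℝ) ^ 2 ^ I + 1 := by
      intro p hp
      have hp2 := (mem_filter.1 hp).2
      have hpp := Nat.prime_of_mem_primeFactors (mem_filter.1 hp).1
      refine (card_mult m K p hpp.pos).trans ?_
      have h9 : (2 : ℝ) ^ 2 ^ I ≤ (p : ℝ) := by exact_mod_cast hp2.le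
      have h10 : (K : ℝ) / p ≤ (K : ℝ) / (2 : ℝ) ^ 2 ^ I :=
        div_le_div_of_nonneg_left (by positivity) (by positivity) h9
      linarith
    refine (sum_le_sum h8).trans ?_
    rw [sum_const, nsmul_eq_mul]
    apply mul_le_mul_of_nonneg_right _ (by positivity)
    exact_mod_cast card_big N0 _ hN0
  linarith

theorem exists_prog (I : ℕ) (hI : 1 ≤ I) (N0 l C0 K : ℕ) (hN0 : 0 < N0) (hcop : Nat.Coprime l N0)
    (h : (2 : ℝ) ^ (60 * 2 ^ I) + (Nat.log 2 N0 : ℝ) * ((K : ℝ) / (2 : ℝ) ^ 2 ^ I + 1) <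
      K * (Real.exp (-8) ^ I / 2)) :
    ∃ t : ℕ, 0 < t ∧ t ≤ K ∧ Nat.Coprime (C0 + l * t) N0 := by
  obtain ⟨x, hx1, hx2⟩ := Nat.chineseRemainder hcop 0 C0
  obtain ⟨m, rfl⟩ : l ∣ x := (Nat.modEq_zero_iff_dvd).1 hx1
  obtain ⟨t, ht0, htK, ht⟩ := exists_shift I hI N0 m K hN0 h
  refine ⟨t, ht0, htK, ?_⟩
  have h1 : l * m + l * t ≡ C0 + l * t [MOD N0] := Nat.ModEq.add_right _ hx2
  have h2 : Nat.Coprime (l * m + l * t) N0 := by
    rw [← mul_add]; exact Nat.Coprime.mul_left hcop ht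
  have h3 := h1.gcd_eq
  unfold Nat.Coprime at h2 ⊢
  rw [← h3]; exact h2

end Pool.Agent.H70GH
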