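import Pool.Agent.H70GH.Memb
import Pool.Agent.H70GH.Siev
import Pool.Agent.H70GH.Par
import Pool.Agent.H70FM.Asym

/-!
The main construction.
-/

set_option autoImplicit false

open Finset

namespace Pool.Agent.H70GH

open Pool.Agent.H70FM (rad rad_le sq_div_log_mono)

/-- the part of the construction in terms of the level `n` -/
theorem atLevel (T0 : ℕ) (hT0 : ∀ T : ℕ, T0 ≤ T → ∃ I K : ℕ, 1 ≤ I ∧ K + 2 ≤ T ^ 489 ∧
    ∀ M : ℕ, M ≤ T ^ 3 → (2 : ℝ) ^ (60 * 2 ^ I) + (M : ℝ) * ((K : ℝ) / (2 : ℝ) ^ 2 ^ I + 1) <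
      K * (Real.exp (-8) ^ I / 2)) (n : ℕ) (hn : T0 + 2000 ≤ n) (X : ℝ) (hX0 : 0 < X)
    (hX : ((1 + 3 * n : ℕ) : ℝ) ^ (64 * n + 40) ≤ Real.log X) :
    ∃ a b c : ℕ, 0 < a ∧ 0 < b ∧ Nat.Coprime a b ∧ a + b = c ∧ X < c ∧
      (c : ℝ) ≤ X + X / ((1 + 3 * n : ℕ) : ℝ) ^ (3 * n ^ 2) ∧
      (rad (a * b * c) : ℝ) * ((1 + 3 * n : ℕ) : ℝ) ^ (3 * n ^ 2) < c := by
  obtain ⟨T, hT⟩ : ∃ T : ℕ, T = 1 + 3 * n := ⟨_, rfl⟩
  rw [← hT] at hX ⊢
  have hT2 : 2 ≤ T := by omega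
  have hTn : n + 1 ≤ T := by omega
  obtain ⟨I, K, hI, hK, hsieve⟩ := hT0 T (by omega)
  have hTpos : 0 < T := by omega
  obtain ⟨l, hl, hYl, hl2Y⟩ := Nat.exists_prime_lt_and_le_two_mul (T ^ (8 * n))
    (pow_pos hTpos _).ne'
  have hlpos : 0 < l := hl.pos
  have hTl : T ≤ l := (Nat.le_self_pow (by omega) T).trans hYl.le
  have hKl : K + 2 ≤ l := by
    refine hK.trans (le_trans ?_ hYl.le)
    exact Nat.pow_le_pow_right hTpos (by omega)
  obtain ⟨h, hh⟩ : ∃ h : ℕ, h = n / 2 := ⟨_, rfl⟩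
  have hh2 : 2 ≤ h := by omega
  -- real versions
  have hTR : (2 : ℝ) ≤ (T : ℝ) := by exact_mod_cast hT2
  have hlR : (1 : ℝ) ≤ (l : ℝ) := by exact_mod_cast hlpos
  have hl0 : (0 : ℝ) < l := by linarith
  obtain ⟨D, hD⟩ : ∃ D : ℕ, D = T ^ (3 * n ^ 2) := ⟨_, rfl⟩
  have hDR : (T : ℝ) ^ (3 * n ^ 2) = (D : ℝ) := by rw [hD]; push_cast; ring
  have hDpos : 0 < D := by rw [hD]; exact pow_pos hTpos _
  rw [hDR]
  -- `l ^ h ≤ X`
  have hlupT : l ≤ T ^ (8 * n + 1) := by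
    refine hl2Y.trans ?_
    rw [pow_succ, mul_comm]
    exact Nat.mul_le_mul_left _ hT2
  have hlhX : (l : ℝ) ^ h ≤ X := by
    have h1 : (l : ℝ) ≤ Real.exp l := by
      have := Real.add_one_le_exp (l : ℝ); linarith
    have h2 : (l : ℝ) ^ h ≤ Real.exp (h * l) := by
      rw [Real.exp_nat_mul]
      exact pow_le_pow_left₀ hl0.le h1 h
    have h3 : (h : ℝ) * l ≤ (T : ℝ) ^ (64 * n + 40) := by
      have h4 : h * l ≤ T ^ (64 * n + 40) := by
        calc h * l ≤ T * T ^ (8 * n + 1) := Nat.mul_le_mul (by omega) hlupT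
          _ = T ^ (8 * n + 2) := by rw [← pow_succ']
          _ ≤ T ^ (64 * n + 40) := Nat.pow_le_pow_right hTpos (by omega)
      exact_mod_cast h4
    calc (l : ℝ) ^ h ≤ Real.exp (h * l) := h2
      _ ≤ Real.exp (Real.log X) := Real.exp_le_exp.2 (h3.trans hX)
      _ = X := Real.exp_log hX0
  have hlh0 : (0 : ℝ) < (l : ℝ) ^ h := by positivity
  obtain ⟨s, hs1, hs2⟩ := exists_nat_pow_near (show 1 ≤ X / (l : ℝ) ^ h by
    rwa [one_le_div hlh0]) (by norm_num : (1 : ℝ) < 3)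
  have h3s : (0 : ℝ) < 3 ^ s := by positivity
  obtain ⟨Y, hY⟩ : ∃ Y : ℕ, Y = ⌊X / 3 ^ s⌋₊ + 1 := ⟨_, rfl⟩
  have hY1 : X < 3 ^ s * Y := by
    have := Nat.lt_floor_add_one (X / 3 ^ s)
    rw [div_lt_iff₀ h3s] at this
    rw [hY]; push_cast; linarith
  have hY2 : (3 : ℝ) ^ s * Y ≤ X + 3 ^ s := by
    have := Nat.floor_le (show 0 ≤ X / 3 ^ s by positivity)
    rw [le_div_iff₀ h3s] at this
    rw [hY]; push_cast; linarith
  have hs1' : (3 : ℝ) ^ s * (l : ℝ) ^ h ≤ X := by rwa [le_div_iff₀ hlh0] at hs1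
  have hs2' : X < 3 ^ (s + 1) * (l : ℝ) ^ h := by rwa [div_lt_iff₀ hlh0] at hs2
  have hY3 : (Y : ℝ) ≤ 3 * (l : ℝ) ^ h + 1 := by
    have h1 : (3 : ℝ) ^ s * Y ≤ 3 ^ s * (3 * (l : ℝ) ^ h + 1) := by
      have : (3 : ℝ) ^ (s + 1) * (l : ℝ) ^ h = 3 ^ s * (3 * (l : ℝ) ^ h) := by ring
      rw [this] at hs2'
      linarith
    exact le_of_mul_le_mul_left h1 h3s
  -- the residue class
  have hcop3 : Nat.Coprime (3 ^ s) l := by
    apply Nat.Coprime.pow_left
    rw [Nat.coprime_primes Nat.prime_three hl]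
    omega
  obtain ⟨v, hv⟩ := Nat.exists_mul_mod_eq_one_of_coprime hcop3 hl.one_lt
  obtain ⟨C0, hC0⟩ : ∃ C0 : ℕ, C0 = Y + (v + (l - 1) * Y) % l := ⟨_, rfl⟩
  have hC0v : C0 ≡ v [MOD l] := by
    have h1 : C0 ≡ Y + (v + (l - 1) * Y) [MOD l] := by
      rw [hC0]; exact Nat.ModEq.add_left _ (Nat.mod_modEq _ _)
    have h2 : Y + (v + (l - 1) * Y) = v + l * Y := by
      obtain ⟨l', rfl⟩ : ∃ l', l = l' + 1 := ⟨l - 1, by omega⟩
      rw [Nat.add_sub_cancel]; ring
    rw [h2] at h1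
    have h3 : v + l * Y ≡ v + 0 [MOD l] :=
      Nat.ModEq.add_left _ ((Nat.modEq_zero_iff_dvd).2 (dvd_mul_right _ _))
    rw [add_zero] at h3
    exact h1.trans h3
  have hC0Y : Y ≤ C0 := by rw [hC0]; omega
  have hC0Y2 : C0 < Y + l := by
    rw [hC0]
    have := Nat.mod_lt (v + (l - 1) * Y) hlpos
    omega
  have hlog2 : Nat.log 2 (NN n l) ≤ T ^ 3 := by
    have h1 : NN n l ≤ 2 ^ (T ^ 3) := by
      calc NN n l ≤ ((1 + 3 * n) * l) ^ n := NN_le n l hlpos
        _ = (T * l) ^ n := by rw [hT]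
        _ ≤ (T * T ^ (8 * n + 1)) ^ n := Nat.pow_le_pow_left (Nat.mul_le_mul_left _ hlupT) n
        _ = T ^ ((8 * n + 2) * n) := by rw [← pow_succ', ← pow_mul]
        _ ≤ (2 ^ T) ^ ((8 * n + 2) * n) := Nat.pow_le_pow_left Nat.lt_two_pow_self.le _
        _ = 2 ^ (T * ((8 * n + 2) * n)) := by rw [← pow_mul]
        _ ≤ 2 ^ (T ^ 3) := by
            apply Nat.pow_le_pow_right (by norm_num)
            have : (8 * n + 2) * n ≤ T * T := by rw [hT]; nlinarith
            calc T * ((8 * n + 2) * n) ≤ T * (T * T) := Nat.mul_le_mul_left _ this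
              _ = T ^ 3 := by ring
    calc Nat.log 2 (NN n l) ≤ Nat.log 2 (2 ^ (T ^ 3)) := Nat.log_mono_right h1
      _ = T ^ 3 := Nat.log_pow (by norm_num) _
  obtain ⟨t, ht0, htK, hcopC⟩ := exists_prog I hI (NN n l) l C0 K (NN_pos n l) (coprime_NN n l)
    (hsieve _ hlog2)
  obtain ⟨C, hC⟩ : ∃ C : ℕ, C = C0 + l * t := ⟨_, rfl⟩
  rw [← hC] at hcopC
  obtain ⟨c, hc⟩ : ∃ c : ℕ, c = 3 ^ s * C := ⟨_, rfl⟩
  have hCpos : 0 < C := by
    have : 0 < l * t := Nat.mul_pos hlpos ht0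
    omega
  have hYC : Y ≤ C := by omega
  have hCup : (C : ℝ) ≤ Y + l * (K + 1) := by
    have h1 : C ≤ Y + l * (K + 1) := by
      have : l * t ≤ l * K := Nat.mul_le_mul_left _ htK
      rw [hC, mul_add]; omega
    exact_mod_cast h1
  have hcl : (l : ℤ) ∣ 1 - c := by
    have h1 : c ≡ 1 [MOD l] := by
      have h2 : C ≡ v [MOD l] := by
        have h3 : C0 + l * t ≡ v + 0 [MOD l] :=
          Nat.ModEq.add hC0v ((Nat.modEq_zero_iff_dvd).2 (dvd_mul_right _ _))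
        rw [hC]; simpa using h3
      have h4 : 3 ^ s * C ≡ 3 ^ s * v [MOD l] := Nat.ModEq.mul_left _ h2
      have h5 : 3 ^ s * v ≡ 1 [MOD l] := by
        unfold Nat.ModEq
        rw [hv.2, Nat.mod_eq_of_lt hl.one_lt]
      rw [hc]; exact h4.trans h5
    exact (Nat.modEq_iff_dvd).1 h1
  have hcR : (c : ℝ) = 3 ^ s * (C : ℝ) := by rw [hc]; push_cast; ring
  have hXc : X < c := by
    rw [hcR]
    refine lt_of_lt_of_le hY1 ?_
    apply mul_le_mul_of_nonneg_left _ h3s.le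
    exact_mod_cast hYC
  -- the powers of `l`
  have hD1 : (D : ℝ) * (l * (l : ℝ)) ≤ (l : ℝ) ^ h := by
    have h1 : D * (l * l) ≤ l ^ h := by
      have h2 : D ≤ l ^ (h - 2) := by
        calc D = T ^ (3 * n ^ 2) := hD
          _ ≤ T ^ (8 * n * (h - 2)) := by
              apply Nat.pow_le_pow_right hTpos
              have e1 : n ≤ 2 * h + 1 := by omega
              obtain ⟨k, hk⟩ : ∃ k, h = k + 2 := ⟨h - 2, by omega⟩
              rw [hk, Nat.add_sub_cancel]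
              have e2 : n ≤ 2 * k + 5 := by omega
              have e3 : 40 ≤ n := by omega
              nlinarith
          _ = (T ^ (8 * n)) ^ (h - 2) := by rw [pow_mul]
          _ ≤ l ^ (h - 2) := Nat.pow_le_pow_left hYl.le _
      calc D * (l * l) ≤ l ^ (h - 2) * (l * l) := Nat.mul_le_mul_right _ h2
        _ = l ^ h := by
            rw [← sq, ← pow_add]; congr 1; omega
    exact_mod_cast h1
  have hKlR : (K : ℝ) + 2 ≤ l := by exact_mod_cast hKl
  have hcup : (c : ℝ) ≤ X + X / D := by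
    have h1 : (c : ℝ) ≤ 3 ^ s * Y + 3 ^ s * (l * (K + 1)) := by
      rw [hcR, ← mul_add]; exact mul_le_mul_of_nonneg_left hCup h3s.le
    have h2 : (3 : ℝ) ^ s + 3 ^ s * (l * (K + 1)) ≤ 3 ^ s * (l * l) := by
      have h3 : 1 + (l : ℝ) * (K + 1) ≤ l * l := by nlinarith
      calc (3 : ℝ) ^ s + 3 ^ s * (l * (K + 1)) = 3 ^ s * (1 + l * (K + 1)) := by ring
        _ ≤ 3 ^ s * (l * l) := mul_le_mul_of_nonneg_left h3 h3s.le
    have hDR0 : (0 : ℝ) < D := by exact_mod_cast hDpos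
    have h4 : (3 : ℝ) ^ s * (l * l) ≤ X / D := by
      rw [le_div_iff₀ hDR0]
      calc (3 : ℝ) ^ s * (l * l) * D = 3 ^ s * (D * (l * l)) := by ring
        _ ≤ 3 ^ s * (l : ℝ) ^ h := mul_le_mul_of_nonneg_left hD1 h3s.le
        _ ≤ X := hs1'
    linarith
  have hlogc : (T : ℝ) ^ (64 * n + 31) ≤ Real.log c := by
    have h1 : (T : ℝ) ^ (64 * n + 31) ≤ (T : ℝ) ^ (64 * n + 40) :=
      pow_le_pow_right₀ (by linarith) (by omega)
    have h2 : Real.log X ≤ Real.log c := Real.log_le_log hX0 hXc.le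
    linarith
  obtain ⟨a, b, ha0, hb0, hab, habc, hrad⟩ := member n l T s C c hT (by omega) hl (by omega)
    (by omega) hl2Y hc hCpos hcl hcopC hlogc
  refine ⟨a, b, c, ha0, hb0, hab, habc, hXc, hcup, ?_⟩
  -- the radical
  have hC4 : C ≤ 4 * l ^ h := by
    have h1 : (C : ℝ) ≤ 4 * (l : ℝ) ^ h := by
      have h3 : 1 + (l : ℝ) * (K + 1) ≤ l * l := by nlinarith
      have h4 : (l : ℝ) * l ≤ (l : ℝ) ^ h := by
        calc (l : ℝ) * l = (l : ℝ) ^ 2 := by ring
          _ ≤ (l : ℝ) ^ h := pow_le_pow_right₀ hlR hh2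
      linarith
    exact_mod_cast h1
  have hR1 : l ^ (n + 1 - h) * rad (a * b * c) ≤ c * (12 * T ^ n) := by
    have h1 : NN n l * (3 * C) ≤ (T * l) ^ n * (12 * l ^ h) := by
      refine Nat.mul_le_mul ?_ (by omega)
      have := NN_le n l hlpos
      rwa [← hT] at this
    have h2 : l ^ (n + h) * (l ^ (n + 1 - h) * rad (a * b * c)) ≤
        l ^ (n + h) * (c * (12 * T ^ n)) := by
      calc l ^ (n + h) * (l ^ (n + 1 - h) * rad (a * b * c))
          = l ^ (2 * n + 1) * rad (a * b * c) := by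
            rw [← mul_assoc, ← pow_add]; congr 2; omega
        _ ≤ c * (NN n l * (3 * C)) := hrad
        _ ≤ c * ((T * l) ^ n * (12 * l ^ h)) := Nat.mul_le_mul_left _ h1
        _ = l ^ (n + h) * (c * (12 * T ^ n)) := by rw [mul_pow, pow_add]; ring
    exact Nat.le_of_mul_le_mul_left h2 (by positivity)
  have hradpos : 0 < rad (a * b * c) := by
    unfold rad
    exact Finset.prod_pos fun p hp => (Nat.prime_of_mem_primeFactors hp).pos
  have hR2 : rad (a * b * c) * l ^ (n - h) < c := by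
    have h1 : 12 * T ^ n < l := by
      refine lt_of_le_of_lt ?_ hYl
      calc 12 * T ^ n ≤ T ^ 4 * T ^ n := by
            apply Nat.mul_le_mul_right
            calc 12 ≤ 2 ^ 4 := by norm_num
              _ ≤ T ^ 4 := Nat.pow_le_pow_left hT2 4
        _ = T ^ (4 + n) := by rw [← pow_add]
        _ ≤ T ^ (8 * n) := Nat.pow_le_pow_right hTpos (by omega)
    have h2 : (12 * T ^ n) * (rad (a * b * c) * l ^ (n - h)) < (12 * T ^ n) * c := by
      calc (12 * T ^ n) * (rad (a * b * c) * l ^ (n - h))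
          < l * (rad (a * b * c) * l ^ (n - h)) :=
            Nat.mul_lt_mul_of_pos_right h1 (by positivity)
        _ = l ^ (n + 1 - h) * rad (a * b * c) := by
            have : n + 1 - h = (n - h) + 1 := by omega
            rw [this, pow_succ]; ring
        _ ≤ c * (12 * T ^ n) := hR1
        _ = (12 * T ^ n) * c := mul_comm _ _
    exact Nat.lt_of_mul_lt_mul_left h2
  have hR3 : rad (a * b * c) * D < c := by
    refine lt_of_le_of_lt ?_ hR2
    apply Nat.mul_le_mul_left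
    calc D = T ^ (3 * n ^ 2) := hD
      _ ≤ T ^ (8 * n * (n - h)) := by
          apply Nat.pow_le_pow_right hTpos
          obtain ⟨k, hk⟩ : ∃ k, n = h + k := ⟨n - h, by omega⟩
          have e1 : h ≤ k := by omega
          have e2 : n - h = k := by omega
          rw [e2]
          have e3 : n ≤ 2 * k := by omega
          nlinarith
      _ = (T ^ (8 * n)) ^ (n - h) := by rw [pow_mul]
      _ ≤ l ^ (n - h) := Nat.pow_le_pow_left hYl.le _
  exact_mod_cast hR3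

theorem main : ∃ X0 : ℝ, ∀ X : ℝ, X0 ≤ X → ∃ a b c : ℕ, 0 < a ∧ 0 < b ∧ Nat.Coprime a b ∧
    a + b = c ∧ X < c ∧
    (c : ℝ) ≤ X + X * Real.exp (-((1 / 2500) * Real.log (Real.log X) ^ 2 /
      Real.log (Real.log (Real.log X)))) ∧
    (rad (a * b * c) : ℝ) * Real.exp ((1 / 2500) * Real.log (Real.log X) ^ 2 /
      Real.log (Real.log (Real.log X))) < c := by
  obtain ⟨T0, hT0⟩ := sieve_ok
  obtain ⟨y0, hy0⟩ := level (T0 + 2000)
  refine ⟨Real.exp y0, fun X hX => ?_⟩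
  have hXpos : 0 < X := lt_of_lt_of_le (Real.exp_pos _) hX
  have hlogX : y0 ≤ Real.log X := by rwa [Real.le_log_iff_exp_le hXpos]
  obtain ⟨n, hn, hn1, hn2⟩ := hy0 (Real.log X) hlogX
  have hcast : ((1 + 3 * n : ℕ) : ℝ) = 1 + 3 * (n : ℝ) := by push_cast; ring
  obtain ⟨a, b, c, h1, h2, h3, h4, h5, h6, h7⟩ := atLevel T0 hT0 n hn X hXpos (by
    rw [hcast]; exact hn1)
  rw [hcast] at h6 h7
  obtain ⟨T, hT⟩ : ∃ T : ℝ, T = 1 + 3 * (n : ℝ) := ⟨_, rfl⟩
  rw [← hT] at h6 h7 hn1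
  have hnR : (2000 : ℝ) ≤ n := by
    have : 2000 ≤ n := by omega
    exact_mod_cast this
  have hnpos : (0 : ℝ) < n := by linarith
  have hTbig : (6001 : ℝ) ≤ T := by rw [hT]; linarith
  have hTpos : 0 < T := by linarith
  have hlog2 : Real.log 2 < 0.6931471808 := Real.log_two_lt_d9
  have hlog2' : (0.6931471803 : ℝ) < Real.log 2 := Real.log_two_gt_d9
  have hlogT : 8 ≤ Real.log T := by
    have h8 : Real.log ((2 : ℝ) ^ 12) ≤ Real.log T :=
      Real.log_le_log (by norm_num) (by norm_num; linarith)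
    rw [Real.log_pow] at h8
    push_cast at h8
    linarith
  have hlogT0 : 0 < Real.log T := by linarith
  obtain ⟨L, hL⟩ : ∃ L : ℝ, L = Real.log (Real.log X) := ⟨_, rfl⟩
  rw [← hL]
  have hy1 : 0 < Real.log X := lt_of_lt_of_le (by positivity) hn1
  have hLlow : Real.exp 1 ≤ L := by
    have h8 : Real.log (T ^ (64 * n + 40)) ≤ L := by
      rw [hL]; exact Real.log_le_log (by positivity) hn1
    rw [Real.log_pow] at h8
    push_cast at h8
    have h9 := Real.exp_one_lt_d9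
    nlinarith
  have hLup : L ≤ 72 * n * Real.log T := by
    have h8 : L ≤ Real.log ((1 + 3 * ((n : ℝ) + 1)) ^ (64 * (n + 1) + 40)) := by
      rw [hL]; exact Real.log_le_log hy1 hn2.le
    rw [Real.log_pow] at h8
    push_cast at h8
    have h9 : Real.log (1 + 3 * ((n : ℝ) + 1)) ≤ Real.log (2 * T) :=
      Real.log_le_log (by positivity) (by rw [hT]; linarith)
    rw [Real.log_mul (by norm_num) hTpos.ne'] at h9
    have h10 : Real.log (1 + 3 * ((n : ℝ) + 1)) ≤ 1.09 * Real.log T := by linarith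
    have h11 : (64 * ((n : ℝ) + 1) + 40) ≤ 64.1 * n := by linarith
    calc L ≤ (64 * ((n : ℝ) + 1) + 40) * Real.log (1 + 3 * ((n : ℝ) + 1)) := h8
      _ ≤ (64.1 * n) * (1.09 * Real.log T) := by
          apply mul_le_mul h11 h10 _ (by positivity)
          apply Real.log_nonneg; linarith
      _ ≤ 72 * n * Real.log T := by nlinarith
  have hmono := sq_div_log_mono hLlow hLup
  have hlogn : 0 < Real.log n := Real.log_pos (by linarith)
  have hΛn : (n : ℝ) ≤ 72 * n * Real.log T := by nlinarith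
  have hlogΛ : Real.log n ≤ Real.log (72 * n * Real.log T) := Real.log_le_log hnpos hΛn
  have hTn : 5 * Real.log T ≤ 6 * Real.log n := by
    have e1 : T ≤ 4 * n := by rw [hT]; linarith
    have e2 : T ^ 5 ≤ (n : ℝ) ^ 6 := by
      calc T ^ 5 ≤ (4 * (n : ℝ)) ^ 5 := pow_le_pow_left₀ hTpos.le e1 5
        _ = 1024 * (n : ℝ) ^ 5 := by ring
        _ ≤ n * (n : ℝ) ^ 5 := mul_le_mul_of_nonneg_right (by linarith) (by positivity)
        _ = (n : ℝ) ^ 6 := by ring
    have e3 := Real.log_le_log (by positivity) e2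
    rw [Real.log_pow, Real.log_pow] at e3
    push_cast at e3
    exact e3
  have hfinal : (1 / 2500) * L ^ 2 / Real.log L ≤ (3 * n ^ 2 : ℕ) * Real.log T := by
    have k1 : L ^ 2 / Real.log L ≤ (72 * n * Real.log T) ^ 2 / Real.log n := by
      refine hmono.trans ?_
      exact div_le_div_of_nonneg_left (by positivity) hlogn hlogΛ
    have k2 : (72 * (n : ℝ) * Real.log T) ^ 2 / Real.log n ≤ 6221 * n ^ 2 * Real.log T := by
      rw [div_le_iff₀ hlogn]
      have k3 : (72 * (n : ℝ) * Real.log T) ^ 2 =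
          (5184 / 5) * (n : ℝ) ^ 2 * Real.log T * (5 * Real.log T) := by ring
      rw [k3]
      calc (5184 / 5) * (n : ℝ) ^ 2 * Real.log T * (5 * Real.log T)
          ≤ (5184 / 5) * (n : ℝ) ^ 2 * Real.log T * (6 * Real.log n) := by gcongr
        _ ≤ 6221 * (n : ℝ) ^ 2 * Real.log T * Real.log n := by
            have : 0 ≤ (n : ℝ) ^ 2 * Real.log T * Real.log n := by positivity
            linarith
    have k4 : (1 / 2500) * L ^ 2 / Real.log L = (1 / 2500) * (L ^ 2 / Real.log L) := by ring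
    rw [k4]
    push_cast
    have k5 : 0 < (n : ℝ) ^ 2 * Real.log T := by positivity
    linarith [k1.trans k2]
  have hTD : (0 : ℝ) < T ^ (3 * n ^ 2) := by positivity
  have hexp : Real.exp ((1 / 2500) * L ^ 2 / Real.log L) ≤ T ^ (3 * n ^ 2) := by
    rw [← Real.exp_log hTD, Real.log_pow]
    exact Real.exp_le_exp.2 hfinal
  have hexp' : X / T ^ (3 * n ^ 2) ≤ X * Real.exp (-((1 / 2500) * L ^ 2 / Real.log L)) := by
    rw [Real.exp_neg, div_eq_mul_inv]
    apply mul_le_mul_of_nonneg_left _ hXpos.le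
    exact inv_anti₀ (Real.exp_pos _) hexp
  refine ⟨a, b, c, h1, h2, h3, h4, h5, by linarith, ?_⟩
  calc (rad (a * b * c) : ℝ) * Real.exp ((1 / 2500) * L ^ 2 / Real.log L)
      ≤ (rad (a * b * c) : ℝ) * T ^ (3 * n ^ 2) := mul_le_mul_of_nonneg_left hexp (by positivity)
    _ < c := h7

end Pool.Agent.H70GH
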