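import Pool.Agent.H70GH.Cons
import Pool.Agent.H70FM.Trip

/-!
Every `c = 3 ^ s * C` with `C` small and `c ≡ 1` modulo a prime is the sum of a triple with small
radical.
-/

set_option autoImplicit false

open Finset

namespace Pool.Agent.H70GH

open Pool.Agent.H70FM (rad rad_le)

/-- the product of the bases -/
def NN (n l : ℕ) : ℕ := ∏ i ∈ Ico 1 (n + 1), (1 + 3 * i * l)

theorem NN_pos (n l : ℕ) : 0 < NN n l :=
  Finset.prod_pos fun i _ => by positivity

theorem NN_le (n l : ℕ) (hl : 1 ≤ l) : NN n l ≤ ((1 + 3 * n) * l) ^ n := by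
  unfold NN
  calc ∏ i ∈ Ico 1 (n + 1), (1 + 3 * i * l) ≤ ∏ _i ∈ Ico 1 (n + 1), ((1 + 3 * n) * l) := by
        refine Finset.prod_le_prod' fun i hi => ?_
        have hi' := Finset.mem_Ico.mp hi
        have : 3 * i * l ≤ 3 * n * l := Nat.mul_le_mul_right _ (Nat.mul_le_mul_left _ (by omega))
        nlinarith
    _ = ((1 + 3 * n) * l) ^ n := by rw [Finset.prod_const, Nat.card_Ico, Nat.add_sub_cancel]

theorem coprime_NN (n l : ℕ) : Nat.Coprime l (NN n l) := by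
  unfold NN
  refine Nat.Coprime.prod_right fun i _ => ?_
  exact (Nat.coprime_add_mul_right_right l 1 (3 * i)).mpr (Nat.coprime_one_right l)

theorem log_bound (n l T : ℕ) (hT : T = 1 + 3 * n) (hn : 1 ≤ n) (hl : 1 ≤ l)
    (hl2 : l ≤ 2 * T ^ (8 * n)) (e : ℕ → ℕ)
    (he : ∀ i ∈ Ico 1 (n + 1), ((e i : ℕ) : ℤ) ≤
        4 * (n + 1) * (108 * (1 + ((3 : ℕ) : ℤ) * n) ^ (16 * n + 2) * (l : ℤ) ^ 2) ^ 2) :
    Real.log ((∏ i ∈ Ico 1 (n + 1), (1 + 3 * i * l) ^ (e i) : ℕ) : ℝ) <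
      (T : ℝ) ^ (64 * n + 31) := by
  have hTn : n + 1 ≤ T := by omega
  have hT2 : 2 ≤ T := by omega
  have hTR : (2 : ℝ) ≤ (T : ℝ) := by exact_mod_cast hT2
  have hTpos : (0 : ℝ) < T := by linarith
  have hlR : (1 : ℝ) ≤ (l : ℝ) := by exact_mod_cast hl
  have hlpR : (0 : ℝ) < l := by linarith
  have hlogT0 : 0 < Real.log T := Real.log_pos (by linarith)
  have hlup : (l : ℝ) ≤ 2 * (T : ℝ) ^ (8 * n) := by exact_mod_cast hl2
  have hTl : Real.log (T * l) ≤ 10 * (T : ℝ) ^ 2 := by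
    have h1 : (T : ℝ) * l ≤ (T : ℝ) ^ (8 * n + 2) := by
      calc (T : ℝ) * l ≤ T * (2 * (T : ℝ) ^ (8 * n)) := mul_le_mul_of_nonneg_left hlup hTpos.le
        _ ≤ T * (T * (T : ℝ) ^ (8 * n)) := by gcongr
        _ = (T : ℝ) ^ (8 * n + 2) := by rw [pow_add]; ring
    have h2 : Real.log (T * l) ≤ (8 * n + 2 : ℕ) * Real.log T := by
      rw [← Real.log_pow]; exact Real.log_le_log (by positivity) h1
    have h3 : Real.log T ≤ T := Real.log_le_self hTpos.le
    have h4 : ((8 * n + 2 : ℕ) : ℝ) ≤ 10 * T := by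
      have : ((8 * n + 2 : ℕ) : ℝ) ≤ ((10 * T : ℕ) : ℝ) := by
        exact_mod_cast (by omega : 8 * n + 2 ≤ 10 * T)
      simpa using this
    calc Real.log (T * l) ≤ (8 * n + 2 : ℕ) * Real.log T := h2
      _ ≤ (10 * T) * T := mul_le_mul h4 h3 hlogT0.le (by positivity)
      _ = 10 * (T : ℝ) ^ 2 := by ring
  have hTcast : (1 + (3 : ℝ) * n) = T := by rw [hT]; push_cast; ring
  have hterm : ∀ i ∈ Ico 1 (n + 1), 1 + 3 * i * l ≤ T * l := by
    intro i hi
    have hi' := Finset.mem_Ico.mp hi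
    rw [hT, add_mul, one_mul]
    have : 3 * i * l ≤ 3 * n * l := Nat.mul_le_mul_right _ (Nat.mul_le_mul_left _ (by omega))
    omega
  set E : ℝ := 4 * (n + 1) * (108 * (T : ℝ) ^ (16 * n + 2) * (l : ℝ) ^ 2) ^ 2 with hE
  have hE0 : 0 ≤ E := by positivity
  have hcast : ((∏ i ∈ Ico 1 (n + 1), (1 + 3 * i * l) ^ (e i) : ℕ) : ℝ) =
      ∏ i ∈ Ico 1 (n + 1), (1 + (3 : ℝ) * i * l) ^ (e i) := by push_cast; rfl
  rw [hcast, Real.log_prod (fun i _ => by positivity)]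
  have h2 : ∀ i ∈ Ico 1 (n + 1), Real.log ((1 + (3 : ℝ) * i * l) ^ (e i)) ≤
      E * Real.log (T * l) := by
    intro i hi
    rw [Real.log_pow]
    have h1 := he i hi
    have h3 : ((e i : ℕ) : ℝ) ≤ E := by
      rw [hE, ← hTcast]
      exact_mod_cast h1
    have h4 : Real.log (1 + (3 : ℝ) * i * l) ≤ Real.log (T * l) := by
      refine Real.log_le_log (by positivity) ?_
      exact_mod_cast hterm i hi
    have h5 : 0 ≤ Real.log (1 + (3 : ℝ) * i * l) := Real.log_nonneg (by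
      have : (0 : ℝ) ≤ 3 * i * l := by positivity
      linarith)
    exact mul_le_mul h3 h4 h5 hE0
  have h3 : ∑ i ∈ Ico 1 (n + 1), Real.log ((1 + (3 : ℝ) * i * l) ^ (e i)) ≤
      n * (E * Real.log (T * l)) := by
    refine (Finset.sum_le_sum h2).trans (le_of_eq ?_)
    rw [Finset.sum_const, Nat.card_Ico, Nat.add_sub_cancel, nsmul_eq_mul]
  have h4 : E ≤ 746496 * (T : ℝ) ^ (64 * n + 5) := by
    have e1 : 108 * (T : ℝ) ^ (16 * n + 2) * (l : ℝ) ^ 2 ≤ 432 * (T : ℝ) ^ (32 * n + 2) := by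
      calc 108 * (T : ℝ) ^ (16 * n + 2) * (l : ℝ) ^ 2
          ≤ 108 * (T : ℝ) ^ (16 * n + 2) * (2 * (T : ℝ) ^ (8 * n)) ^ 2 := by gcongr
        _ = 432 * (T : ℝ) ^ (32 * n + 2) := by
            rw [mul_pow, ← pow_mul]
            have : (T : ℝ) ^ (32 * n + 2) = (T : ℝ) ^ (16 * n + 2) * (T : ℝ) ^ (8 * n * 2) := by
              rw [← pow_add]; congr 1; ring
            rw [this]; ring
    have e2 : (n : ℝ) + 1 ≤ T := by exact_mod_cast hTn
    calc E ≤ 4 * (T : ℝ) * (432 * (T : ℝ) ^ (32 * n + 2)) ^ 2 := by rw [hE]; gcongr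
      _ = 746496 * (T : ℝ) ^ (64 * n + 5) := by
          rw [mul_pow, ← pow_mul]
          have : (T : ℝ) ^ (64 * n + 5) = T * (T : ℝ) ^ ((32 * n + 2) * 2) := by
            rw [← pow_succ']; congr 1; ring
          rw [this]; ring
  have h5 : (n : ℝ) ≤ T := by
    have : (n : ℝ) + 1 ≤ T := by exact_mod_cast hTn
    linarith
  have h6 : (n : ℝ) * (E * Real.log (T * l)) ≤ 7464960 * (T : ℝ) ^ (64 * n + 8) := by
    have hlog0 : 0 ≤ Real.log (T * l) := Real.log_nonneg (by nlinarith)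
    calc (n : ℝ) * (E * Real.log (T * l))
        ≤ T * ((746496 * (T : ℝ) ^ (64 * n + 5)) * (10 * (T : ℝ) ^ 2)) := by gcongr
      _ = 7464960 * (T : ℝ) ^ (64 * n + 8) := by
          have : (T : ℝ) ^ (64 * n + 8) = T * ((T : ℝ) ^ (64 * n + 5) * (T : ℝ) ^ 2) := by
            rw [← pow_add, ← pow_succ']
          rw [this]; ring
  have h8 : (7464960 : ℝ) < (T : ℝ) ^ 23 := by
    calc (7464960 : ℝ) < (2 : ℝ) ^ 23 := by norm_num
      _ ≤ (T : ℝ) ^ 23 := by gcongr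
  calc ∑ i ∈ Ico 1 (n + 1), Real.log ((1 + (3 : ℝ) * i * l) ^ (e i))
      ≤ 7464960 * (T : ℝ) ^ (64 * n + 8) := h3.trans h6
    _ < (T : ℝ) ^ 23 * (T : ℝ) ^ (64 * n + 8) := by gcongr
    _ = (T : ℝ) ^ (64 * n + 31) := by rw [← pow_add]; congr 1; ring

theorem member (n l T s C c : ℕ) (hT : T = 1 + 3 * n) (hn : 1 ≤ n) (hl : l.Prime) (h3l : 3 < l)
    (hnl : 2 * n + 1 < l) (hl2 : l ≤ 2 * T ^ (8 * n)) (hc : c = 3 ^ s * C) (hC : 0 < C)
    (hcl : (l : ℤ) ∣ 1 - c) (hcop : Nat.Coprime C (NN n l))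
    (hlog : (T : ℝ) ^ (64 * n + 31) ≤ Real.log c) :
    ∃ a b : ℕ, 0 < a ∧ 0 < b ∧ Nat.Coprime a b ∧ a + b = c ∧
      l ^ (2 * n + 1) * rad (a * b * c) ≤ c * (NN n l * (3 * C)) := by
  obtain ⟨e, he, hdvd⟩ := construct 3 n l (c : ℤ) (by norm_num) hn hl h3l hnl hcl
  set a : ℕ := ∏ i ∈ Ico 1 (n + 1), (1 + 3 * i * l) ^ (e i) with ha
  have ha0 : 0 < a := Finset.prod_pos fun i _ => by positivity
  have hloga := log_bound n l T hT hn hl.one_lt.le hl2 e he
  rw [← ha] at hloga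
  have hcpos : 0 < c := by rw [hc]; positivity
  have hac : a < c := by
    have h1 : Real.log a < Real.log c := lt_of_lt_of_le hloga hlog
    have h2 : (a : ℝ) < c := (Real.log_lt_log_iff (by exact_mod_cast ha0)
      (by exact_mod_cast hcpos)).1 h1
    exact_mod_cast h2
  have hdvd' : (l : ℤ) ^ (2 * n + 2) ∣ (c : ℤ) - a := by
    have e1 : (a : ℤ) - c =
      ∏ i ∈ Ico 1 (n + 1), (1 + ((3 : ℕ) : ℤ) * i * l) ^ (e i) - c := by
      rw [ha]; push_cast; ring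
    rw [← e1] at hdvd
    have := (dvd_neg).mpr hdvd
    rwa [neg_sub] at this
  have hdvdN : l ^ (2 * n + 2) ∣ c - a := by
    have h1 : ((c - a : ℕ) : ℤ) = (c : ℤ) - a := by
      rw [Nat.cast_sub hac.le]
    have h2 : ((l ^ (2 * n + 2) : ℕ) : ℤ) ∣ ((c - a : ℕ) : ℤ) := by
      rw [h1]; push_cast; exact hdvd'
    exact_mod_cast h2
  obtain ⟨b', hb'⟩ := hdvdN
  have hbpos : 0 < c - a := by omega
  have hb'pos : 0 < b' := by
    rcases Nat.eq_zero_or_pos b' with h | h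
    · rw [h, mul_zero] at hb'; omega
    · exact h
  have hlpos := hl.pos
  have hcopa : Nat.Coprime a c := by
    rw [ha]
    refine Nat.Coprime.prod_left fun i hi => ?_
    refine Nat.Coprime.pow_left _ ?_
    rw [hc]
    refine Nat.Coprime.mul_right ?_ ?_
    · refine Nat.Coprime.pow_right _ ?_
      rw [mul_assoc]
      exact ((Nat.coprime_add_mul_left_right 3 1 (i * l)).mpr (Nat.coprime_one_right 3)).symm
    · have h1 : (1 + 3 * i * l) ∣ NN n l :=
        Finset.dvd_prod_of_mem (fun i => 1 + 3 * i * l) hi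
      exact (Nat.Coprime.coprime_dvd_right h1 hcop).symm
  have hcopb : Nat.Coprime a (c - a) := by
    have h1 : c = (c - a) + a := by omega
    rw [h1] at hcopa
    exact (Nat.coprime_add_self_right).mp hcopa
  refine ⟨a, c - a, ha0, hbpos, hcopb, by omega, ?_⟩
  have h1 : rad (a * (c - a) * c) ≤ NN n l * (l * b') * (3 * C) := by
    refine rad_le _ _ ?_ ?_
    · have h2 : NN n l ≠ 0 := (NN_pos n l).ne'
      have h3 : l ≠ 0 := by omega
      have h4 : b' ≠ 0 := by omega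
      have h5 : 3 * C ≠ 0 := by omega
      simp only [ne_eq, mul_eq_zero, not_or] at h5 ⊢
      exact ⟨⟨h2, h3, h4⟩, h5⟩
    · intro p hp
      have hpp := Nat.prime_of_mem_primeFactors hp
      have hpd := Nat.dvd_of_mem_primeFactors hp
      rcases (Nat.Prime.dvd_mul hpp).mp hpd with h2 | h2
      · rcases (Nat.Prime.dvd_mul hpp).mp h2 with h3 | h3
        · rw [ha] at h3
          obtain ⟨i, hi, h4⟩ := (Prime.dvd_finsetProd_iff hpp.prime _).mp h3
          have h5 := hpp.dvd_of_dvd_pow h4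
          exact Dvd.dvd.mul_right (Dvd.dvd.mul_right
            (h5.trans (Finset.dvd_prod_of_mem (fun i => 1 + 3 * i * l) hi)) _) _
        · rw [hb'] at h3
          rcases (Nat.Prime.dvd_mul hpp).mp h3 with h4 | h4
          · have h5 := hpp.dvd_of_dvd_pow h4
            exact Dvd.dvd.mul_right (Dvd.dvd.mul_left (Dvd.dvd.mul_right h5 _) _) _
          · exact Dvd.dvd.mul_right (Dvd.dvd.mul_left (Dvd.dvd.mul_left h4 _) _) _
      · rw [hc] at h2
        rcases (Nat.Prime.dvd_mul hpp).mp h2 with h3 | h3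
        · have h5 := hpp.dvd_of_dvd_pow h3
          exact Dvd.dvd.mul_left (Dvd.dvd.mul_right h5 _) _
        · exact Dvd.dvd.mul_left (Dvd.dvd.mul_left h3 _) _
  calc l ^ (2 * n + 1) * rad (a * (c - a) * c)
      ≤ l ^ (2 * n + 1) * (NN n l * (l * b') * (3 * C)) := Nat.mul_le_mul_left _ h1
    _ = (l ^ (2 * n + 2) * b') * (NN n l * (3 * C)) := by
        rw [pow_succ l (2 * n + 1)]; ring
    _ = (c - a) * (NN n l * (3 * C)) := by rw [← hb']
    _ ≤ c * (NN n l * (3 * C)) := Nat.mul_le_mul_right _ (Nat.sub_le _ _)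

end Pool.Agent.H70GH
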